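import Pool.Agent.H69.Ball.Final
import Pool.Agent.H69.Ball.Closed

/-!
# The ball algebra has a Schauder basis

For every `n ≥ 1` the ball algebra `A(B)` of the Euclidean unit ball `B` of `ℂⁿ` has a Schauder
basis. The statement is about an arbitrary complex normed space `X` which is a copy of the ball
algebra: its elements are evaluated at the points of the closed ball, the functions obtained are
exactly the continuous functions on the closed ball which are holomorphic in the open ball, and
the norm is the supremum of the absolute values.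
-/

set_option autoImplicit false

open Metric Filter Topology

namespace Pool.Agent.Results.MP_52fb39_an.BallAlgebraBasis

/-- `ℂⁿ` with the Euclidean norm. -/
abbrev Cn (n : ℕ) : Type := EuclideanSpace ℂ (Fin n)

/-- `f` is continuous on the closed unit ball and holomorphic in the open unit ball: complex
differentiable at each of its points. -/
def InBallAlgebra {n : ℕ} (f : Cn n → ℂ) : Prop :=
  ContinuousOn f {z | ‖z‖ ≤ 1} ∧ ∀ z, ‖z‖ < 1 → DifferentiableAt ℂ f z

/-- The complex normed space `X` is the ball algebra: `ev x z` is the value of `x ∈ X` at the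
point `z`, the operations are the pointwise ones on the closed ball, the norm is the supremum of
the absolute values on the closed ball, and the functions on the closed ball which occur are those
with `InBallAlgebra`. -/
structure IsBallAlgebra (n : ℕ) (X : Type) [NormedAddCommGroup X] [NormedSpace ℂ X]
    (ev : X → Cn n → ℂ) : Prop where
  add : ∀ x y z, ‖z‖ ≤ 1 → ev (x + y) z = ev x z + ev y z
  smul : ∀ (c : ℂ) x z, ‖z‖ ≤ 1 → ev (c • x) z = c * ev x z
  norm : ∀ x, IsLUB {t : ℝ | ∃ z, ‖z‖ ≤ 1 ∧ t = ‖ev x z‖} ‖x‖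
  mem : ∀ x, ∃ f, InBallAlgebra f ∧ ∀ z, ‖z‖ ≤ 1 → ev x z = f z
  surj : ∀ f, InBallAlgebra f → ∃ x, ∀ z, ‖z‖ ≤ 1 → ev x z = f z

/-- The complex normed space `X` has a Schauder basis `e`: every `x ∈ X` is in exactly one way the
sum of a norm-convergent series `∑ a_k e_k`. -/
def HasSchauderBasis (X : Type) [NormedAddCommGroup X] [NormedSpace ℂ X] : Prop :=
  ∃ e : ℕ → X, ∀ x : X, ∃! a : ℕ → ℂ,
    Tendsto (fun N => ‖x - ∑ k ∈ Finset.range N, a k • e k‖) atTop (𝓝 0)

open Pool.Agent.H69.Ball in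
theorem mem_ballAlg_iff {n : ℕ} (F : C(K n, ℂ)) (f : Cn n → ℂ)
    (h : ∀ z : K n, F z = f z) (hd : ∀ z, ‖z‖ < 1 → DifferentiableAt ℂ f z) :
    F ∈ ballAlg n := by
  rw [mem_ballAlg]
  have h1 : DifferentiableOn ℂ f (ball (0 : EuclideanSpace ℂ (Fin n)) 1) := fun z hz =>
    (hd z (by simpa using hz)).differentiableWithinAt
  refine h1.congr fun z hz => ?_
  rw [ext_apply _ _ (ball_subset_closedBall hz)]
  exact h ⟨z, ball_subset_closedBall hz⟩

theorem closedBall_eq (n : ℕ) :
    {z : Cn n | ‖z‖ ≤ 1} = closedBall (0 : EuclideanSpace ℂ (Fin n)) 1 := by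
  ext z
  simp

open Pool.Agent.H69.Ball in
/-- The submodule of `C(closed ball, ℂ)` is a ball algebra in the sense above. -/
theorem isBallAlgebra_ballAlg (n : ℕ) :
    IsBallAlgebra n (ballAlg n) (fun x => ext (x : C(K n, ℂ))) where
  add := fun x y z _ => by
    rw [Submodule.coe_add, ext_add]
    rfl
  smul := fun c x z _ => by
    rw [Submodule.coe_smul, ext_smul]
    rfl
  norm := fun x => by
    constructor
    · rintro t ⟨z, hz, rfl⟩
      exact norm_ext_le _ z
    · intro t ht
      have h0 : 0 ≤ t := by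
        have h1 := ht ⟨0, by simp, rfl⟩
        exact le_trans (norm_nonneg _) h1
      change ‖(x : C(K n, ℂ))‖ ≤ t
      rw [ContinuousMap.norm_le _ h0]
      intro z
      rw [← ext_coe]
      exact ht ⟨z, mem_closedBall_zero_iff.mp z.2, rfl⟩
  mem := fun x => by
    refine ⟨ext (x : C(K n, ℂ)), ⟨?_, fun z hz => ?_⟩, fun z _ => rfl⟩
    · rw [closedBall_eq]
      exact continuousOn_ext _
    · have h1 : DifferentiableOn ℂ (ext (x : C(K n, ℂ)))
          (ball (0 : EuclideanSpace ℂ (Fin n)) 1) := x.2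
      exact h1.differentiableAt (isOpen_ball.mem_nhds (by simpa using hz))
  surj := fun f hf => by
    have hc : ContinuousOn f (closedBall (0 : EuclideanSpace ℂ (Fin n)) 1) := by
      rw [← closedBall_eq]
      exact hf.1
    let F : C(K n, ℂ) := ⟨fun z => f z, continuousOn_iff_continuous_domRestrict.mp hc⟩
    refine ⟨⟨F, mem_ballAlg_iff F f (fun z => rfl) hf.2⟩, fun z hz => ?_⟩
    exact ext_apply F z (by simpa using hz)

open Pool.Agent.H69.Ball in
/-- Every ball algebra is isometrically isomorphic to the submodule of `C(closed ball, ℂ)`. -/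
theorem exists_equiv {n : ℕ} {X : Type} [NormedAddCommGroup X] [NormedSpace ℂ X]
    {ev : X → Cn n → ℂ} (h : IsBallAlgebra n X ev) : Nonempty (X ≃ₗᵢ[ℂ] ballAlg n) := by
  have hK : ∀ z : K n, ‖(z : Cn n)‖ ≤ 1 := fun z => mem_closedBall_zero_iff.mp z.2
  have hcont : ∀ x, Continuous fun z : K n => ev x z := by
    intro x
    obtain ⟨f, hf, hfx⟩ := h.mem x
    have hc : ContinuousOn f (closedBall (0 : EuclideanSpace ℂ (Fin n)) 1) := by
      rw [← closedBall_eq]
      exact hf.1
    have h1 : (fun z : K n => ev x z) = fun z : K n => f z := by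
      funext z
      exact hfx z (hK z)
    rw [h1]
    exact continuousOn_iff_continuous_domRestrict.mp hc
  have hmem : ∀ x, (⟨fun z : K n => ev x z, hcont x⟩ : C(K n, ℂ)) ∈ ballAlg n := by
    intro x
    obtain ⟨f, hf, hfx⟩ := h.mem x
    exact mem_ballAlg_iff _ f (fun z => hfx z (hK z)) hf.2
  let T : X →ₗ[ℂ] ballAlg n :=
    { toFun := fun x => ⟨⟨fun z : K n => ev x z, hcont x⟩, hmem x⟩
      map_add' := fun x y => by
        apply Subtype.ext
        ext z
        exact h.add x y z (hK z)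
      map_smul' := fun c x => by
        apply Subtype.ext
        ext z
        exact h.smul c x z (hK z) }
  have hnorm : ∀ x, ‖T x‖ = ‖x‖ := by
    intro x
    have h1 : IsLUB {t : ℝ | ∃ z : Cn n, ‖z‖ ≤ 1 ∧ t = ‖ev x z‖} ‖T x‖ := by
      have h2 := (isBallAlgebra_ballAlg n).norm (T x)
      have h3 : {t : ℝ | ∃ z : Cn n, ‖z‖ ≤ 1 ∧ t = ‖ext ((T x : ballAlg n) : C(K n, ℂ)) z‖} =
          {t : ℝ | ∃ z : Cn n, ‖z‖ ≤ 1 ∧ t = ‖ev x z‖} := by
        ext t
        constructor
        · rintro ⟨z, hz, rfl⟩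
          exact ⟨z, hz, by rw [ext_apply _ z (by simpa using hz)]; rfl⟩
        · rintro ⟨z, hz, rfl⟩
          exact ⟨z, hz, by rw [ext_apply _ z (by simpa using hz)]; rfl⟩
      rw [h3] at h2
      exact h2
    exact h1.unique (h.norm x)
  refine ⟨LinearIsometryEquiv.ofSurjective ⟨T, hnorm⟩ ?_⟩
  intro F
  obtain ⟨f, hf, hfF⟩ := (isBallAlgebra_ballAlg n).mem F
  obtain ⟨x, hx⟩ := h.surj f hf
  refine ⟨x, ?_⟩
  apply Subtype.ext
  ext z
  change ev x z = _
  rw [hx z (hK z), ← hfF z (hK z), ext_coe]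

/-- Ball algebras exist, and each of them is, for `n ≥ 1`, a Banach space with a Schauder basis. -/
theorem result (n : ℕ) (hn : 1 ≤ n) :
    (∃ (X : Type) (_ : NormedAddCommGroup X) (_ : NormedSpace ℂ X) (ev : X → Cn n → ℂ),
      IsBallAlgebra n X ev) ∧
    ∀ (X : Type) [NormedAddCommGroup X] [NormedSpace ℂ X] (ev : X → Cn n → ℂ),
      IsBallAlgebra n X ev → CompleteSpace X ∧ HasSchauderBasis X := by
  refine ⟨⟨_, _, _, _, isBallAlgebra_ballAlg n⟩, fun X _ _ ev h => ?_⟩
  obtain ⟨T⟩ := exists_equiv h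
  have hcomp : CompleteSpace (Pool.Agent.H69.Ball.ballAlg n) := inferInstance
  refine ⟨T.toIsometryEquiv.isometry.isUniformInducing.completeSpace_congr
    T.surjective |>.mpr hcomp, ?_⟩
  obtain ⟨e, he⟩ := Pool.Agent.H69.Ball.exists_basis_ballAlg hn
  refine ⟨fun i => T.symm (e i), fun x => ?_⟩
  have hkey : ∀ a : ℕ → ℂ,
      Tendsto (fun N => ‖x - ∑ k ∈ Finset.range N, a k • T.symm (e k)‖) atTop (𝓝 0) ↔
      Tendsto (fun N => ∑ i ∈ Finset.range N, a i • e i) atTop (𝓝 (T x)) := by
    intro a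
    refine Iff.trans ?_ tendsto_subtype_rng.symm
    refine Iff.trans ?_ tendsto_iff_norm_sub_tendsto_zero.symm
    refine tendsto_congr fun N => ?_
    rw [norm_sub_rev (b := ((T x : Pool.Agent.H69.Ball.ballAlg n) :
      C(Pool.Agent.H69.Ball.K n, ℂ)))]
    have h1 : T (x - ∑ k ∈ Finset.range N, a k • T.symm (e k)) =
        T x - ∑ k ∈ Finset.range N, a k • e k := by
      rw [LinearIsometryEquiv.map_sub]
      congr 1
      refine (map_sum T.toLinearEquiv _ _).trans (Finset.sum_congr rfl fun k _ => ?_)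
      exact (T.map_smul _ _).trans (by rw [LinearIsometryEquiv.apply_symm_apply])
    rw [← T.norm_map, h1]
    rfl
  obtain ⟨a, ha, hau⟩ := he (T x)
  exact ⟨a, (hkey a).mpr ha, fun b hb => hau b ((hkey b).mp hb)⟩

end Pool.Agent.Results.MP_52fb39_an.BallAlgebraBasis
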